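import Pool.Agent.Mg.F8f5299.Ga6348f

namespace Pool.Agent.Results.MP_8f5299_co.Lattice

open Pool.Agent.MP_8f5299_co

/-- For every finite Coxeter group and every standard Coxeter element `c`, the `c`-noncrossing
Bruhat order is antisymmetric, and any two elements have a join and a meet. -/
theorem result {B : Type*} {W : Type*} [Group W] [Finite W] (M : CoxeterMatrix B)
    (cs : CoxeterSystem M W) (ω : List B) (hnd : ω.Nodup) (hall : ∀ i : B, i ∈ ω) :
    (∀ x y : W, NCBLe cs (cs.wordProd ω) x y → NCBLe cs (cs.wordProd ω) y x → x = y) ∧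
    (∀ x y : W, ∃ j : W, NCBLe cs (cs.wordProd ω) x j ∧ NCBLe cs (cs.wordProd ω) y j ∧
      ∀ z : W, NCBLe cs (cs.wordProd ω) x z → NCBLe cs (cs.wordProd ω) y z →
        NCBLe cs (cs.wordProd ω) j z) ∧
    (∀ x y : W, ∃ m : W, NCBLe cs (cs.wordProd ω) m x ∧ NCBLe cs (cs.wordProd ω) m y ∧
      ∀ z : W, NCBLe cs (cs.wordProd ω) z x → NCBLe cs (cs.wordProd ω) z y →
        NCBLe cs (cs.wordProd ω) z m) := by
  classical
  let _ : Fintype B := ⟨ω.toFinset, fun i => List.mem_toFinset.mpr (hall i)⟩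
  simp only [ncb_iff hnd]
  let _ := bruhat cs
  exact ⟨fun x y h h' => le_antisymm (step_le h) (step_le h'),
    (data hnd hall).join, (data hnd hall).meet⟩

end Pool.Agent.Results.MP_8f5299_co.Lattice
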